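import Pool.Agent.ASE.Stmts9

/-!
# Squad ASE, row LNG: the number of modular characters of the comparison block
-/

open scoped BigOperators

noncomputable section

namespace Pool.Agent.PP.SE.H16

open Pool.Agent.Helper51_AWC Pool.Agent.Helper79_WRA Pool.Agent.PP Pool.Agent.PP.KF
open Pool.Agent.PP.K9 Pool.Agent.PP.K9.H97 Pool.Agent.PP.H75 Pool.Agent.PP.T3 Pool.Agent.PP.SO
open Pool.Agent.PP.SD

attribute [local instance] Ideal.Quotient.field

/-- the comparison group `V₀ ⋊ S` itself -/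
theorem cg_id (ℓ : ℕ) [Fact ℓ.Prime] {V₀ S : Type} [CommGroup V₀] [Group S]
    (φ : S →* MulAut V₀) : Cg ℓ φ (MonoidHom.id (V₀ ⋊[φ] S)) (MonoidHom.id (V₀ ⋊[φ] S)) where
  sec _ := rfl
  ck := by
    have h1 : (MonoidHom.id (V₀ ⋊[φ] S)).ker = ⊥ := by
      rw [MonoidHom.ker_eq_bot_iff]
      exact fun a b h => h
    rw [h1, Subgroup.card_bot]
    intro h
    exact (Fact.out : ℓ.Prime).one_lt.ne' (Nat.dvd_one.1 h)
  fix k hk _ := hk

/-- LNG -/
theorem lng (sbg : SbgStmt) (blg : BlgStmt) (tgg : TggStmt) (lmb : LmbStmt) : LngStmt := by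
  intro ℓ hfact M _ hM hℓ V₀ S G _ _ _ _ _ _ φ θ κ d π j hF hT hC
  have hC' : Cg ℓ φ (MonoidHom.id (V₀ ⋊[φ] S)) (MonoidHom.id (V₀ ⋊[φ] S)) := cg_id ℓ φ
  have hfin : Finite (V₀ ⋊[φ] S) :=
    Finite.of_equiv (V₀ × S) (SemidirectProduct.equivProd (φ := φ)).symm
  obtain ⟨B, hB⟩ : ∃ B, B = BG φ θ d π j := ⟨_, rfl⟩
  obtain ⟨B', hB'⟩ : ∃ B', B' = BG φ θ d (MonoidHom.id (V₀ ⋊[φ] S)) (MonoidHom.id (V₀ ⋊[φ] S)) :=
    ⟨_, rfl⟩
  have hS : Sb ℓ M φ.range B := by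
    rw [hB]
    exact sbg ℓ M hM V₀ S G φ θ κ d π j hF hT hC
  have hS' : Sb ℓ M φ.range B' := by
    rw [hB']
    exact sbg ℓ M hM V₀ S _ φ θ κ d _ _ hF hT hC'
  obtain ⟨hTg, hTE⟩ := tgg ℓ M hM V₀ S G φ θ κ d π j hF hT hC
  obtain ⟨-, hTE'⟩ := tgg ℓ M hM V₀ S _ φ θ κ d _ _ hF hT hC'
  rw [← hB] at hTg
  have hLam : ∀ E₁ ≤ φ.range, Lam B E₁ = Lam B' E₁ := by
    intro E₁ h1
    rw [hB, hB', (hTE E₁ h1).2, (hTE' E₁ h1).2]
  have hk : (IrrE M B.e).ncard = (IrrE M B'.e).ncard := by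
    have h1 := (blg ℓ M hM V₀ S G φ θ κ d π j hF hT hC).2.1
    have h2 := (blg ℓ M hM V₀ S _ φ θ κ d _ _ hF hT hC').2.1
    rw [hB, hB']
    exact h1.trans h2.symm
  have hl := (lmb ℓ M hM hℓ V₀ G φ.range hF B hS).2.2.2.1
  obtain ⟨-, hln, -, hl', -⟩ := lmb ℓ M hM hℓ V₀ _ φ.range hF B' hS'
  have hsum : ∑ᶠ v ∈ {v : V₀ | v ≠ 1}, Nat.card (Es φ.range v) * Lam B (Es φ.range v) =
      ∑ᶠ v ∈ {v : V₀ | v ≠ 1}, Nat.card (Es φ.range v) * Lam B' (Es φ.range v) := by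
    refine finsum_congr fun v => finsum_congr fun _ => ?_
    rw [hLam (Es φ.range v) fun σ hσ => hσ.1]
  have hcard : 0 < Nat.card φ.range := Nat.card_pos
  have h3 : ln B.e = ln B'.e := by
    rw [hk, hl', hsum] at hl
    have h4 := Nat.add_right_cancel hl
    exact (Nat.eq_of_mul_eq_mul_left hcard h4).symm
  -- `inl(V₀)` is normal
  have hnor : ((⊤ : Subgroup V₀).map B'.i).Normal := by
    constructor
    rintro _ ⟨v, -, rfl⟩ g
    rw [hB']
    refine ⟨φ g.right v, Subgroup.mem_top _, ?_⟩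
    show SemidirectProduct.inl (φ g.right v) = g * SemidirectProduct.inl v * g⁻¹
    refine SemidirectProduct.ext ?_ ?_
    · rw [SemidirectProduct.mul_left, SemidirectProduct.mul_left, SemidirectProduct.mul_right,
        SemidirectProduct.left_inl, SemidirectProduct.right_inl, mul_one,
        SemidirectProduct.inv_left, map_inv, map_inv, map_inv,
        MulAut.apply_inv_self]
      rw [mul_comm g.left, mul_inv_cancel_right]
      rfl
    · rw [SemidirectProduct.mul_right, SemidirectProduct.mul_right, SemidirectProduct.inv_right,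
        SemidirectProduct.right_inl, SemidirectProduct.right_inl, mul_one, mul_inv_cancel]
  have htop : (⊤ : Subgroup V₀) ≠ ⊥ := by
    intro h
    have h1 : Nat.card (⊤ : Subgroup V₀) = 1 := by rw [h, Subgroup.card_bot]
    rw [Subgroup.card_top, hF.cd] at h1
    have h2 := (Fact.out : ℓ.Prime).one_lt
    nlinarith
  have h5 : ln B'.e = Lam B' φ.range := hln ⊤ htop hnor
  have h6 : TE B φ.range = Tg B.i.range B.g := by
    ext x
    rw [hTg x, hB, (hTE φ.range le_rfl).1 x]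
    constructor
    · rintro ⟨y, hy, -⟩
      exact ⟨y, hy⟩
    · rintro ⟨y, hy⟩
      exact ⟨y, hy, ⟨y.right, rfl⟩⟩
  have h7 : Lam B φ.range = lT B := by
    unfold Lam lT
    rw [h6]
  rw [← hB, h3, h5, ← hLam φ.range le_rfl, h7]

end Pool.Agent.PP.SE.H16
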