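import Pool.Agent.ASE.Stmts7

/-!
# Squad ASE, row MQA: a change of the lift at `c⁻¹`
-/

open scoped BigOperators

noncomputable section

namespace Pool.Agent.PP.SE.H16

open Pool.Agent.Helper51_AWC Pool.Agent.Helper79_WRA Pool.Agent.PP Pool.Agent.PP.KF
open Pool.Agent.PP.K9 Pool.Agent.PP.K9.H97 Pool.Agent.PP.H75 Pool.Agent.PP.T3 Pool.Agent.PP.SO
open Pool.Agent.PP.SD

attribute [local instance] Ideal.Quotient.field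

theorem mem_fin (R : Subring ℚ) {ι : Type} (s : Set ι) (f : ι → ℚ) (h : ∀ i ∈ s, f i ∈ R) :
    ∑ᶠ i ∈ s, f i ∈ R :=
  finsum_mem_induction (fun x => x ∈ R) R.zero_mem (fun _ _ => R.add_mem) h

theorem sub_fin (R : Subring ℚ) {ι : Type} [Finite ι] (s : Set ι) (f g : ι → ℚ)
    (h : ∀ i ∈ s, f i - g i ∈ R) : ∑ᶠ i ∈ s, f i - ∑ᶠ i ∈ s, g i ∈ R := by
  rw [← finsum_mem_sub_distrib _ _ s.toFinite]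
  exact mem_fin R s _ h

/-- MQA -/
theorem mqa (prb : PrbStmt) (csb : CsbStmt) : MqaStmt := by
  intro ℓ hfact M _ V₀ G _ _ _ _ E₀ hF B D hRs d₁ n₁ z₁ y₁ hE ρ₁ ρ₂ hρ₁ hρ₂ c d hc hd hρc
  have hℓ : ℓ.Prime := hfact.out
  have hℓ0 : (ℓ : ℚ) ≠ 0 := by exact_mod_cast hℓ.ne_zero
  have hρ1 : ρ₁ 1 = 0 := by
    have := hρ₁ 1 1
    rw [mul_one] at this
    exact left_eq_add.1 this
  -- the difference of the lifts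
  have hx1 : ∀ v, v ≠ c⁻¹ → lf ρ₁ c⁻¹ v = lf ρ₁ 1 v := by
    intro v hv
    unfold lf
    rw [if_neg (fun h => hv h.1), if_neg]
    rintro ⟨h1, h2⟩
    rw [h1] at h2
    exact h2 hρ1
  have hx2 : lf ρ₁ c⁻¹ c⁻¹ = lf ρ₁ 1 c⁻¹ + ℓ := by
    unfold lf
    rw [if_pos ⟨rfl, hρc⟩, if_neg, add_zero]
    rintro ⟨h1, -⟩
    exact hc (inv_eq_one.1 h1)
  obtain ⟨x, hx⟩ : ∃ x : V₀ → ℤ, x = lf ρ₁ 1 := ⟨_, rfl⟩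
  obtain ⟨x', hx'⟩ : ∃ x : V₀ → ℤ, x = lf ρ₁ c⁻¹ := ⟨_, rfl⟩
  obtain ⟨x₂, hx₂⟩ : ∃ x : V₀ → ℤ, x = lf ρ₂ 1 := ⟨_, rfl⟩
  rw [← hx, ← hx'] at hx1 hx2
  rw [← hx, ← hx', ← hx₂]
  have hprm : ∀ a ∈ RL ℓ E₀, ∀ v, pr ℓ E₀ a v ∈ a := fun a ha => (prb ℓ V₀ E₀ hF a).2.2.2.2.1 ha
  have hbot : ∀ a ∈ RL ℓ E₀, a ≠ ⊥ := by
    rintro a ⟨ha, -⟩ h
    rw [h, Subgroup.card_bot] at ha
    exact hℓ.one_lt.ne ha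
  have hcS : ∀ a ∈ RL ℓ E₀, ∀ σ, cS D.U c d σ a ∈ SOR.Rl ℓ := by
    intro a ha σ
    obtain ⟨q, hq, hq'⟩ := (csb ℓ V₀ D.U D.U a 0 (hRs.u1 a (hbot a ha)) (hRs.u1 a (hbot a ha))
      ⟨0, Subring.zero_mem _, by rw [sub_self, mul_zero]⟩ c d σ).1
    rw [hq']
    exact Subring.add_mem _ (Subring.one_mem _) (Subring.mul_mem _ (natCast_mem _ ℓ) hq)
  have hint : ∀ k : ℤ, (k : ℚ) ∈ SOR.Rl ℓ := fun k => intCast_mem _ k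
  -- the second sum
  have h2 : ∑ᶠ a ∈ {a : Subgroup V₀ | a ∈ RL ℓ E₀ ∧ c ∉ a},
        ((x' (pr ℓ E₀ a c)⁻¹ * x₂ d⁻¹ : ℤ) : ℚ) / (ℓ : ℚ) ^ 2 * y₁ a (pr ℓ E₀ a c) d =
      ∑ᶠ a ∈ {a : Subgroup V₀ | a ∈ RL ℓ E₀ ∧ c ∉ a},
        ((x (pr ℓ E₀ a c)⁻¹ * x₂ d⁻¹ : ℤ) : ℚ) / (ℓ : ℚ) ^ 2 * y₁ a (pr ℓ E₀ a c) d := by
    refine finsum_mem_congr rfl fun a ha => ?_
    rw [hx1]
    intro h
    apply ha.2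
    have h3 := hprm a ha.1 c
    rwa [inv_injective h] at h3
  -- the third sum
  have h3 : ∑ᶠ b ∈ {b : Subgroup V₀ | b ∈ RL ℓ E₀ ∧ d ∉ b},
        ((x' c⁻¹ * x₂ (pr ℓ E₀ b d)⁻¹ : ℤ) : ℚ) / (ℓ : ℚ) ^ 2 * y₁ b (pr ℓ E₀ b d) c -
      ∑ᶠ b ∈ {b : Subgroup V₀ | b ∈ RL ℓ E₀ ∧ d ∉ b},
        ((x c⁻¹ * x₂ (pr ℓ E₀ b d)⁻¹ : ℤ) : ℚ) / (ℓ : ℚ) ^ 2 * y₁ b (pr ℓ E₀ b d) c ∈
      SOR.Rl ℓ := by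
    apply sub_fin
    intro b hb
    obtain ⟨q, hq, hq'⟩ := hE.yr b hb.1 (pr ℓ E₀ b d) (hprm b hb.1 d) c hc
    have e1 : ((x' c⁻¹ * x₂ (pr ℓ E₀ b d)⁻¹ : ℤ) : ℚ) / (ℓ : ℚ) ^ 2 * y₁ b (pr ℓ E₀ b d) c -
        ((x c⁻¹ * x₂ (pr ℓ E₀ b d)⁻¹ : ℤ) : ℚ) / (ℓ : ℚ) ^ 2 * y₁ b (pr ℓ E₀ b d) c =
        ((x₂ (pr ℓ E₀ b d)⁻¹ : ℤ) : ℚ) * q := by
      rw [hq', hx2]
      push_cast
      field_simp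
      ring
    rw [e1]
    exact Subring.mul_mem _ (hint _) hq
  -- the last sum
  have h4 : ∑ᶠ σ ∈ {σ : MulAut V₀ | σ ∈ E₀ ∧ c * σ d ≠ 1},
      (cS D.U c d σ (Subgroup.zpowers (c * σ d)) *
        (((x' (c * σ d)⁻¹ * x₂ (σ⁻¹ (c * σ d))⁻¹ : ℤ) : ℚ) / (ℓ : ℚ) ^ 2) * d₁ (c * σ d) -
        ∑ᶠ a ∈ {a : Subgroup V₀ | a ∈ RL ℓ E₀ ∧ c * σ d ∉ a}, cS D.U c d σ a *
          (((x' (pr ℓ E₀ a (c * σ d))⁻¹ * x₂ (σ⁻¹ (pr ℓ E₀ a (c * σ d)))⁻¹ : ℤ) : ℚ) /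
            (ℓ : ℚ) ^ 2) * z₁ a (pr ℓ E₀ a (c * σ d))) -
      ∑ᶠ σ ∈ {σ : MulAut V₀ | σ ∈ E₀ ∧ c * σ d ≠ 1},
      (cS D.U c d σ (Subgroup.zpowers (c * σ d)) *
        (((x (c * σ d)⁻¹ * x₂ (σ⁻¹ (c * σ d))⁻¹ : ℤ) : ℚ) / (ℓ : ℚ) ^ 2) * d₁ (c * σ d) -
        ∑ᶠ a ∈ {a : Subgroup V₀ | a ∈ RL ℓ E₀ ∧ c * σ d ∉ a}, cS D.U c d σ a *
          (((x (pr ℓ E₀ a (c * σ d))⁻¹ * x₂ (σ⁻¹ (pr ℓ E₀ a (c * σ d)))⁻¹ : ℤ) : ℚ) /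
            (ℓ : ℚ) ^ 2) * z₁ a (pr ℓ E₀ a (c * σ d))) ∈ SOR.Rl ℓ := by
    apply sub_fin
    intro σ hσ
    have e1 : x' (c * σ d)⁻¹ = x (c * σ d)⁻¹ := by
      apply hx1
      intro h
      have h5 : c * σ d = c := inv_injective h
      have h6 : σ d = 1 := mul_eq_left.1 h5
      exact hd ((map_eq_one_iff σ σ.injective).1 h6)
    rw [e1]
    have e2 : ∀ A S' S : ℚ, (A - S') - (A - S) = S - S' := fun A S' S => by ring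
    rw [e2]
    apply sub_fin
    intro a ha
    by_cases h7 : pr ℓ E₀ a (c * σ d) = c
    · have h8 := hprm a ha.1 (c * σ d)
      rw [h7] at h8
      obtain ⟨q, hq, hq'⟩ := hE.zr a ha.1 c h8
      have e3 : cS D.U c d σ a *
          (((x (pr ℓ E₀ a (c * σ d))⁻¹ * x₂ (σ⁻¹ (pr ℓ E₀ a (c * σ d)))⁻¹ : ℤ) : ℚ) /
            (ℓ : ℚ) ^ 2) * z₁ a (pr ℓ E₀ a (c * σ d)) -
          cS D.U c d σ a *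
          (((x' (pr ℓ E₀ a (c * σ d))⁻¹ * x₂ (σ⁻¹ (pr ℓ E₀ a (c * σ d)))⁻¹ : ℤ) : ℚ) /
            (ℓ : ℚ) ^ 2) * z₁ a (pr ℓ E₀ a (c * σ d)) =
          -(cS D.U c d σ a * ((x₂ (σ⁻¹ c)⁻¹ : ℤ) : ℚ) * q) := by
        rw [h7, hq', hx2]
        push_cast
        field_simp
        ring
      rw [e3]
      exact Subring.neg_mem _ (Subring.mul_mem _ (Subring.mul_mem _ (hcS a ha.1 σ) (hint _)) hq)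
    · rw [hx1 _ (fun h => h7 (inv_injective h)), sub_self]
      exact Subring.zero_mem _
  unfold MQ
  rw [h2]
  have h5 := Subring.neg_mem _ (Subring.add_mem _ h3 h4)
  have e5 : ∀ t' t s p' p u' u w : ℚ, t' - t = w → -(p' - p + (u' - u)) =
      t' - s - p' - u' - (t - s - p - u) - w := by
    intro t' t s p' p u' u w h
    rw [← h]
    ring
  rw [e5 (((x' c⁻¹ * x₂ d⁻¹ : ℤ) : ℚ) / (ℓ : ℚ) ^ 2 * n₁ c d)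
    (((x c⁻¹ * x₂ d⁻¹ : ℤ) : ℚ) / (ℓ : ℚ) ^ 2 * n₁ c d) _ _ _ _ _
    (((x₂ d⁻¹ : ℤ) : ℚ) / ℓ * n₁ c d) (by
      rw [hx2]
      push_cast
      field_simp
      ring)] at h5
  exact h5

end Pool.Agent.PP.SE.H16
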