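import Pool.Agent.ASE.Stmts2b

/-!
# Squad ASE, row RFB: field `d4` of `Rs` at a reflection line
-/

open scoped BigOperators

noncomputable section

namespace Pool.Agent.PP.SE.H16

open Pool.Agent.Helper51_AWC Pool.Agent.Helper79_WRA Pool.Agent.PP Pool.Agent.PP.KF
open Pool.Agent.PP.K9 Pool.Agent.PP.K9.H97 Pool.Agent.PP.H75 Pool.Agent.PP.T3 Pool.Agent.PP.SO
open Pool.Agent.PP.SD

attribute [local instance] Ideal.Quotient.field

theorem lin_conj {V₀ : Type} [CommGroup V₀] [Finite V₀] {s : V₀ → ℂ} (hs : s ∈ lin V₀) (v : V₀) :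
    starRingEnd ℂ (s v) = s v⁻¹ := by
  have h1 : s v * s v⁻¹ = 1 := by rw [← hs.2, mul_inv_cancel, hs.1]
  have h2 : ∀ m : ℕ, s (v ^ m) = s v ^ m := by
    intro m
    induction m with
    | zero => rw [pow_zero, pow_zero, hs.1]
    | succ m ih => rw [pow_succ, pow_succ, hs.2, ih]
  have h3 : s v ^ Nat.card V₀ = 1 := by rw [← h2, pow_card_eq_one', hs.1]
  have h4 : ‖s v‖ = 1 := Complex.norm_eq_one_of_pow_eq_one h3 Nat.card_pos.ne'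
  rw [← Complex.inv_eq_conj h4]
  exact inv_eq_of_mul_eq_one_right h1

theorem one_lk {V₀ : Type} [CommGroup V₀] (W : Subgroup V₀) : (fun _ => 1 : V₀ → ℂ) ∈ lk W :=
  ⟨⟨rfl, fun _ _ => (mul_one 1).symm⟩, fun _ _ => rfl⟩

theorem fin_const {ι : Type} (s : Set ι) (hs : s.Finite) (c : ℂ) :
    ∑ᶠ _i ∈ s, c = s.ncard * c := by
  rw [finsum_mem_eq_finite_toFinset_sum _ hs, Finset.sum_const, nsmul_eq_mul,
    Set.ncard_eq_toFinset_card _ hs]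

open Classical in
theorem fin_ite {ι : Type} (s : Set ι) (hs : s.Finite) (p : ι → Prop) (c : ℂ) :
    ∑ᶠ i ∈ s, (if p i then c else 0) = ({i | i ∈ s ∧ p i}.ncard : ℂ) * c := by
  rw [← fin_const _ (hs.subset fun i hi => hi.1), finsum_mem_eq_finite_toFinset_sum _ hs,
    finsum_mem_eq_finite_toFinset_sum _ (hs.subset fun i (hi : i ∈ {i | i ∈ s ∧ p i}) => hi.1),
    ← Finset.sum_filter]
  refine Finset.sum_congr ?_ fun _ _ => rfl
  ext i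
  rw [Finset.mem_filter, Set.Finite.mem_toFinset, Set.Finite.mem_toFinset]
  rfl

theorem orb_eq {V₀ : Type} [CommGroup V₀] (E₀ : Subgroup (MulAut V₀)) (W : Subgroup V₀)
    (s : V₀ → ℂ) : orb E₀ W s =
      (fun τ : MulAut V₀ => fun v => s (τ v)) '' (St E₀ W : Set (MulAut V₀)) := by
  ext s'
  constructor
  · rintro ⟨τ, hτ, rfl⟩
    exact ⟨τ, hτ, rfl⟩
  · rintro ⟨τ, hτ, rfl⟩
    exact ⟨τ, hτ, rfl⟩

/-- RFB -/
theorem rfb (snu : SnuStmt) (gec : GecStmt) (gea : GeaStmt) : RfbStmt := by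
  intro ℓ hfact M _ hM hℓ2 V₀ G _ _ _ _ E₀ hF B hS W hW N e O hCy D hD x y
  classical
  obtain ⟨hChf, hsum, -⟩ := snu ℓ M hM hℓ2 V₀ G E₀ hF B hS W hW N e O hCy
  obtain ⟨hlW, hlk, hlWf, hlkf, -, -, hν, hsk, hsτ, horb, hor1, -, hor3, -⟩ :=
    gec ℓ V₀ E₀ hF W hW
  obtain ⟨-, hprW, hprm, hprw, -, hprτ, -, -⟩ := gea ℓ V₀ E₀ hF W hW
  have hStf : (St E₀ W : Set (MulAut V₀)).Finite := Set.toFinite _
  have hOf : ∀ s, (orb E₀ W s).Finite := by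
    intro s
    rw [orb_eq]
    exact hStf.image _
  have hinj : ∀ s ∈ lk W, s ≠ (fun _ => 1) →
      (St E₀ W : Set (MulAut V₀)).InjOn (fun τ : MulAut V₀ => fun v => s (τ v)) := by
    intro s hs hs1 τ hτ τ' hτ' h
    by_contra hne
    have h1 : τ * τ'⁻¹ ∈ St E₀ W := (St E₀ W).mul_mem hτ ((St E₀ W).inv_mem hτ')
    refine ((hsτ s hs _ h1).2 hs1).2 (fun h2 => hne (mul_inv_eq_one.1 h2)) ?_
    funext v
    have h3 := congrFun h (τ'⁻¹ v)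
    rw [MulAut.mul_apply]
    refine h3.trans ?_
    show s (τ' (τ'⁻¹ v)) = s v
    rw [MulAut.apply_inv_self]
  -- the sums over the orbits
  obtain ⟨H, hH⟩ : ∃ H : (V₀ → ℂ) → ℂ, H = fun s => ∑ᶠ τ ∈ (St E₀ W : Set (MulAut V₀)),
      s ((τ : MulAut V₀) x) * starRingEnd ℂ (s y) := ⟨_, rfl⟩
  have hHorb : ∀ s ∈ lk W, s ≠ (fun _ => 1) →
      (∑ᶠ s' ∈ orb E₀ W s, s' x) * starRingEnd ℂ (s y) = H s := by
    intro s hs hs1
    rw [orb_eq, finsum_mem_image (hinj s hs hs1), finsum_mem_mul, hH]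
  -- the sum over `Iv ν`
  have hIv : ∀ ν ∈ lk (kW E₀ W), ∑ᶠ χ ∈ Iv B W ν, D.D W χ x * starRingEnd ℂ (D.D W χ y) =
      ν (x * y⁻¹) * ∑ᶠ s ∈ lk W, H s := by
    intro ν hν'
    have hIf : (Iv B W ν).Finite := hChf.subset fun χ hχ => hχ.1
    have hval : ∀ χ ∈ Iv B W ν, D.D W χ x * starRingEnd ℂ (D.D W χ y) =
        ν (x * y⁻¹) * (if χ ∈ N then 1 else (∑ᶠ s ∈ O χ, s x) * starRingEnd ℂ (∑ᶠ s ∈ O χ, s y)) := by
      intro χ hχ
      rw [hD.dD χ hχ.1 x, hD.dD χ hχ.1 y, hχ.2 _ (hprW x).1, hχ.2 _ (hprW y).1, (hν ν hν' x).1,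
        (hν ν hν' y).1, hν'.1.2, ← lin_conj hν'.1, map_mul]
      have he : (e χ : ℂ) * e χ = 1 := by
        rcases (hCy.lv ν hν').sg χ hχ with h | h <;> rw [h] <;> norm_num
      have hec : starRingEnd ℂ (e χ : ℂ) = e χ := map_intCast (starRingEnd ℂ) (e χ)
      by_cases hN : χ ∈ N
      · simp only [if_pos hN]
        rw [hec]
        linear_combination ν x * (starRingEnd ℂ) (ν y) * he
      · rw [if_neg hN, if_neg hN, map_mul, hec, if_neg hN]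
        linear_combination ν x * (starRingEnd ℂ) (ν y) * (∑ᶠ s ∈ O χ, s x) *
          (starRingEnd ℂ) (∑ᶠ s ∈ O χ, s y) * he
    rw [finsum_mem_congr rfl hval, ← mul_finsum_mem]
    congr 1
    rw [← finsum_mem_inter_add_sdiff N hIf]
    have hA : ∑ᶠ χ ∈ Iv B W ν ∩ N, (if χ ∈ N then (1 : ℂ) else
        (∑ᶠ s ∈ O χ, s x) * starRingEnd ℂ (∑ᶠ s ∈ O χ, s y)) = nS E₀ W := by
      have h1 : ∑ᶠ χ ∈ Iv B W ν ∩ N, (if χ ∈ N then (1 : ℂ) else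
          (∑ᶠ s ∈ O χ, s x) * starRingEnd ℂ (∑ᶠ s ∈ O χ, s y)) =
          ∑ᶠ _χ ∈ Iv B W ν ∩ N, (1 : ℂ) := by
        refine finsum_mem_congr rfl fun χ hχ => ?_
        rw [if_pos hχ.2]
      rw [h1, fin_const _ (hIf.subset Set.inter_subset_left), mul_one]
      have h2 := (hCy.lv ν hν').cN
      have h3 : Iv B W ν ∩ N = {χ | χ ∈ Iv B W ν ∧ χ ∈ N} := rfl
      rw [h3, h2]
    have hBs : ∑ᶠ χ ∈ Iv B W ν \ N, (if χ ∈ N then (1 : ℂ) else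
        (∑ᶠ s ∈ O χ, s x) * starRingEnd ℂ (∑ᶠ s ∈ O χ, s y)) =
        ∑ᶠ s ∈ lk W \ {fun _ => 1}, H s := by
      have hOr : ∀ χ ∈ Iv B W ν \ N, ∃ s₀ ∈ lk W, s₀ ≠ (fun _ => 1) ∧ O χ = orb E₀ W s₀ :=
        fun χ hχ => ((hCy.lv ν hν').vX χ hχ.1 hχ.2).1
      have hmem : ∀ χ ∈ Iv B W ν \ N, ∀ s ∈ O χ, s ∈ lk W ∧ s ≠ (fun _ => 1) ∧
          O χ = orb E₀ W s := by
        intro χ hχ s hs
        obtain ⟨s₀, h1, h2, h3⟩ := hOr χ hχ
        rw [h3] at hs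
        have h4 := (horb s₀ h1 h2).2.2 s hs
        obtain ⟨τ, hτ, rfl⟩ := hs
        exact ⟨(hsτ s₀ h1 τ hτ).1, ((hsτ s₀ h1 τ hτ).2 h2).1, by rw [h3, h4]⟩
      have hU : lk W \ {fun _ => 1} = ⋃ χ ∈ Iv B W ν \ N, O χ := by
        ext s
        rw [Set.mem_iUnion₂]
        constructor
        · rintro ⟨h1, h2⟩
          have h2' : s ≠ (fun _ => 1) := h2
          obtain ⟨χ, ⟨h3, h4, h5⟩, -⟩ := (hCy.lv ν hν').bX s h1 h2'
          refine ⟨χ, ⟨h3, h4⟩, ?_⟩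
          rw [h5]
          exact (horb s h1 h2').2.1
        · rintro ⟨χ, hχ, hs⟩
          obtain ⟨h1, h2, -⟩ := hmem χ hχ s hs
          exact ⟨h1, h2⟩
      have hdis : (Iv B W ν \ N).PairwiseDisjoint O := by
        intro χ hχ χ' hχ' hne
        show Disjoint (O χ) (O χ')
        rw [Set.disjoint_left]
        intro s hs hs'
        obtain ⟨h1, h2, h3⟩ := hmem χ hχ s hs
        obtain ⟨-, -, h4⟩ := hmem χ' hχ' s hs'
        exact hne (((hCy.lv ν hν').bX s h1 h2).unique ⟨hχ.1, hχ.2, h3⟩ ⟨hχ'.1, hχ'.2, h4⟩)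
      have hOfin : ∀ χ ∈ Iv B W ν \ N, (O χ).Finite := by
        intro χ hχ
        obtain ⟨s₀, -, -, h3⟩ := hOr χ hχ
        rw [h3]
        exact hOf s₀
      rw [hU, finsum_mem_biUnion hdis (hIf.subset Set.sdiff_subset) hOfin]
      refine finsum_mem_congr rfl fun χ hχ => ?_
      rw [if_neg hχ.2]
      have h5 : starRingEnd ℂ (∑ᶠ s ∈ O χ, s y) = ∑ᶠ s ∈ O χ, starRingEnd ℂ (s y) :=
        (starRingEnd ℂ).toAddMonoidHom.map_finsum_mem (fun s => s y) (hOfin χ hχ)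
      rw [h5, mul_finsum_mem]
      refine finsum_mem_congr rfl fun s hs => ?_
      obtain ⟨h1, h2, h3⟩ := hmem χ hχ s hs
      rw [h3]
      exact hHorb s h1 h2
    have h1 : lk W ∩ {fun _ => 1} = {(fun _ => 1 : V₀ → ℂ)} := by
      rw [Set.inter_eq_right, Set.singleton_subset_iff]
      exact one_lk W
    rw [hA, hBs, ← finsum_mem_inter_add_sdiff {fun _ => 1} hlWf, h1, finsum_mem_singleton]
    congr 1
    rw [hH]
    show (nS E₀ W : ℂ) = ∑ᶠ τ ∈ (St E₀ W : Set (MulAut V₀)), (1 : ℂ) * starRingEnd ℂ 1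
    rw [map_one, mul_one, fin_const _ hStf, mul_one]
    rfl
  -- the sum over `lk W`
  have hHsum : ∑ᶠ s ∈ lk W, H s =
      ({τ | τ ∈ (St E₀ W : Set (MulAut V₀)) ∧ τ x * y⁻¹ ∈ W}.ncard : ℂ) * ℓ := by
    rw [hH, finsum_mem_comm _ hlWf hStf, ← fin_ite _ hStf]
    refine finsum_mem_congr rfl fun τ _ => ?_
    have h1 : ∑ᶠ s ∈ lk W, s (τ x) * starRingEnd ℂ (s y) = ∑ᶠ s ∈ lk W, s (τ x * y⁻¹) := by
      refine finsum_mem_congr rfl fun s hs => ?_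
      rw [hs.1.2, lin_conj hs.1]
    rw [h1]
    by_cases hz : τ x * y⁻¹ ∈ W
    · rw [if_pos hz]
      have h2 : ∑ᶠ s ∈ lk W, s (τ x * y⁻¹) = ∑ᶠ _s ∈ lk W, (1 : ℂ) :=
        finsum_mem_congr rfl fun s hs => hs.2 _ hz
      rw [h2, fin_const _ hlWf, hlW, mul_one]
    · rw [if_neg hz]
      have h2 : ∑ᶠ s ∈ lk W, s (τ x * y⁻¹) =
          ∑ᶠ s ∈ lk W, s (τ x * y⁻¹ * (pr ℓ E₀ W (τ x * y⁻¹))⁻¹) :=
        finsum_mem_congr rfl fun s hs => (hsk s hs _).1.symm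
      rw [h2]
      refine hor1 _ (hprW _).2 fun h3 => hz ?_
      rw [mul_inv_eq_one.1 h3]
      exact (hprW _).1
  rw [hsum, finsum_mem_congr rfl hIv, ← finsum_mem_mul, hHsum]
  -- the sum over `ν`
  have hprinv : ∀ v, pr ℓ E₀ W v⁻¹ = (pr ℓ E₀ W v)⁻¹ := by
    intro v
    rw [eq_inv_iff_mul_eq_one, ← hprm, inv_mul_cancel, hprw 1 W.one_mem]
  have h2 : ∑ᶠ ν ∈ lk (kW E₀ W), ν (x * y⁻¹) =
      ∑ᶠ ν ∈ lk (kW E₀ W), ν (pr ℓ E₀ W (x * y⁻¹)) :=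
    finsum_mem_congr rfl fun ν hν' => (hν ν hν' _).1.symm
  rw [h2]
  by_cases hp : pr ℓ E₀ W (x * y⁻¹) = 1
  · have h3 : ∑ᶠ ν ∈ lk (kW E₀ W), ν (pr ℓ E₀ W (x * y⁻¹)) = ∑ᶠ _ν ∈ lk (kW E₀ W), (1 : ℂ) := by
      refine finsum_mem_congr rfl fun ν hν' => ?_
      rw [hp]
      exact hν'.1.1
    have h4 : {τ | τ ∈ (St E₀ W : Set (MulAut V₀)) ∧ τ x * y⁻¹ ∈ W} =
        {τ : MulAut V₀ | τ ∈ St E₀ W ∧ τ x = y} := by
      ext τ
      constructor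
      · rintro ⟨h5, h6⟩
        refine ⟨h5, ?_⟩
        have h7 := hprw _ h6
        rw [hprm, hprτ τ h5, ← hprm, hp] at h7
        exact mul_inv_eq_one.1 h7.symm
      · rintro ⟨h5, h6⟩
        refine ⟨h5, ?_⟩
        rw [h6, mul_inv_cancel]
        exact W.one_mem
    rw [h3, fin_const _ hlkf, hlk, h4]
    ring
  · rw [hor3 _ (hprW _).1 hp, zero_mul]
    have h4 : {τ : MulAut V₀ | τ ∈ St E₀ W ∧ τ x = y} = ∅ := by
      rw [Set.eq_empty_iff_forall_notMem]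
      rintro τ ⟨h5, h6⟩
      apply hp
      rw [hprm, hprinv, ← h6, hprτ τ h5, mul_inv_cancel]
    rw [h4, Set.ncard_empty]
    simp

end Pool.Agent.PP.SE.H16
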