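import Pool.Agent.ASE.Stmts8
import Pool.Agent.Helper24_AT2.DZA
import Pool.Agent.AT5.Stmts2

/-!
# Squad ASE, row YYF: the theorem for block idempotents with defect groups of order `ℓ ^ 2`
-/

open scoped BigOperators

noncomputable section

namespace Pool.Agent.PP.SE.H16

open Pool.Agent.Helper51_AWC Pool.Agent.Helper79_WRA Pool.Agent.PP Pool.Agent.PP.KF
open Pool.Agent.PP.K9 Pool.Agent.PP.K9.H97 Pool.Agent.PP.H75 Pool.Agent.PP.T3

attribute [local instance] Ideal.Quotient.field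

/-- a block with a commutative defect group is a part of a datum `Ld` -/
theorem exists_ld {ℓ : ℕ} [Fact ℓ.Prime] {M : Ideal (integralClosure ℤ ℂ)} [M.IsMaximal]
    (hM : (ℓ : integralClosure ℤ ℂ) ∈ M) {G : Type} [Group G] [Finite G] {e : G → FF M}
    (he : IsBlk e) {V : Subgroup G} (hV : Tp ℓ e V) (hab : ∀ a ∈ V, ∀ b ∈ V, a * b = b * a) :
    ∃ γ : G → FF M, Ld ℓ e V γ := by
  have hℓ : ℓ.Prime := Fact.out
  have hF : GoodF ℓ (FF M) := H50.fld ℓ hℓ M hM
  have hbr : br V e ≠ 0 := K9.H69.gd_br hV.gd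
  obtain ⟨γ, hγ1, hγ2, hγ3⟩ := H46.exists_blk hbr (Subgroup.centralizer (V : Set G))
  have hBx : Bx (Subgroup.centralizer (V : Set G)) γ := ⟨hγ1, hγ2⟩
  have hIx : Ix (Subgroup.centralizer (V : Set G)) (br V e) :=
    ⟨fun x hx => H66.br_of_not_mem hx,
      (H20.brm ℓ (FF M) hF G V _ hV.pg le_rfl (K9.H69.cent_le_norm _)).2.2 _ he.1⟩
  refine ⟨γ, he, hV, hab, hBx, ?_⟩
  rw [hIx.comm hBx.ix]
  rcases hBx.dich' hIx with h2 | h2
  · exact h2
  · exfalso
    apply hγ3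
    rw [hIx.comm hBx.ix, h2]

/-- YYF -/
theorem yyf (s2f : S2fStmt) (t5a : T5.T5aStmt) : YyfStmt := by
  intro ℓ _ M _ hM h5 G _ _ e he V hV hcV
  have hℓ : ℓ.Prime := Fact.out
  have hab : ∀ a ∈ V, ∀ b ∈ V, a * b = b * a := by
    intro a ha b hb
    have h1 := (IsPGroup.isMulCommutative_of_card_eq_prime_sq (G := V) hcV).is_comm.comm
      ⟨a, ha⟩ ⟨b, hb⟩
    exact congrArg Subtype.val h1
  by_cases hexp : ∀ v ∈ V, v ^ ℓ = 1
  · obtain ⟨γ, hγ⟩ := exists_ld hM he hV hab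
    exact s2f ℓ M hM h5 G e V γ hγ hexp hcV
  · push Not at hexp
    obtain ⟨v, hv, hv1⟩ := hexp
    have hord : orderOf v = ℓ ^ 2 := by
      have h1 : orderOf v ∣ ℓ ^ 2 := by
        rw [← hcV]
        have := orderOf_dvd_natCard (⟨v, hv⟩ : V)
        rwa [Subgroup.orderOf_mk] at this
      obtain ⟨i, hi, hi'⟩ := (Nat.dvd_prime_pow hℓ).1 h1
      have h2 : ¬ i ≤ 1 := by
        intro h3
        apply hv1
        apply orderOf_dvd_iff_pow_eq_one.1
        rw [hi']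
        exact (pow_dvd_pow ℓ h3).trans (by rw [pow_one])
      have h3 : i = 2 := by omega
      rw [hi', h3]
    refine t5a ℓ M hM 2 0 0 ?_ _ e V he hV ⟨by norm_num, by norm_num, ⟨v, hv, ?_, hord⟩,
      ?_, ⟨V, le_rfl, hab, ?_⟩⟩
    · unfold T5.ep
      rw [if_neg (by omega)]
      norm_num
    · intro w hw
      exact hab w hw v hv
    · rw [hcV]
    · rw [Subgroup.relIndex_self, pow_zero]

end Pool.Agent.PP.SE.H16
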